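import Pool.Agent.Lib_MP_2a50c0.Defs
import Pool.Agent.Lib_MP_2a50c0.Fin

/-!
# MP_2a50c0_an: the unit balls of the reflexive subspaces of `L_1`

Let `X` be a closed linear subspace of `L_1[0,1]` which is isomorphic to a subspace of `L_p[0,1]`
for some `1 < p < ∞` and contains an isomorphic copy of `ℓ_r` for some `1 ≤ r < ∞`. Then the unit
ball of `X` is uniformly homeomorphic to the unit ball of `ℓ_2`.
-/

open scoped ENNReal

namespace Pool.Agent.Results.MP_2a50c0_an.ReflexiveSubspaces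

open Pool.Agent.UB

/-- Let `X` be a closed subspace of `L_1[0,1]` which embeds isomorphically into `L_p[0,1]` for
some `1 < p < ∞`, and such that `ℓ_r` embeds isomorphically into `X` for some `1 ≤ r < ∞`. Then the
closed unit ball of `X` is uniformly homeomorphic to the closed unit ball of `ℓ_2`. -/
theorem result (X : Submodule ℝ (LL 1)) (hX : IsClosed (X : Set (LL 1)))
    (p : ℝ≥0∞) [Fact (1 ≤ p)] (hp1 : 1 < p) (hp : p ≠ ∞) (hT : Embeds X (LL p))
    (r : ℝ≥0∞) [Fact (1 ≤ r)] (hr : r ≠ ∞) (hS : Embeds (El r) X) :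
    BallsUH X (El 2) := by
  obtain ⟨T, c, hc, hT⟩ := hT
  obtain ⟨S, d, hd, hS⟩ := hS
  have hcX : CompleteSpace X := hX.completeSpace_coe
  obtain ⟨hY, hXY⟩ := HE.range T hc hT
  have hcY : CompleteSpace (T : X →ₗ[ℝ] LL p).range := hY.completeSpace_coe
  obtain ⟨hW, hWE⟩ := HE.range
    ((T.comp S).codRestrict (T : X →ₗ[ℝ] LL p).range fun a => ⟨S a, rfl⟩) (mul_pos hc hd)
    fun a => by
      have h1 := hT (S a)
      have h2 := mul_le_mul_of_nonneg_left (hS a) hc.le
      change c * d * ‖a‖ ≤ ‖T (S a)‖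
      nlinarith
  have hWL := hWE.symm.trans (HE.ell r hr)
  exact (hXY.trans (HE.subspace_Lp p hp1 hp _ hY _ hW hWL)).ball

end Pool.Agent.Results.MP_2a50c0_an.ReflexiveSubspaces
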