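import Pool.Agent.Lib_MP_2a50c0.DefsB
import Pool.Agent.Lib_MP_2a50c0.Sec

/-!
# MP_2a50c0_an: a criterion for the non-reflexive subspaces of `L_1`

Let `X` be a closed linear subspace of `L_1[0,1]` which contains a complemented isomorphic copy of
some `ℓ_r`, `1 ≤ r < ∞` (every non-reflexive `X` contains a complemented copy of `ℓ_1`). If the
quotient map `L_1 → L_1/X` has a section which is uniformly continuous on the unit ball, then the
unit ball of `X` is uniformly homeomorphic to the unit ball of `ℓ_2`.
-/

open scoped ENNReal

namespace Pool.Agent.Results.MP_2a50c0_an.SectionCriterion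

open Pool.Agent.UB

/-- Let `X` be a closed subspace of `L_1[0,1]` which contains a complemented copy of `ℓ_r` for some
`1 ≤ r < ∞`, and suppose that the quotient map `L_1 → L_1/X` has a section on the closed unit ball
of `L_1/X` which is uniformly continuous. Then the closed unit ball of `X` is uniformly
homeomorphic to the closed unit ball of `ℓ_2`. -/
theorem result (X : Submodule ℝ (LL 1)) (hX : IsClosed (X : Set (LL 1)))
    (r : ℝ≥0∞) [Fact (1 ≤ r)] (hr : r ≠ ∞) (hc : ComplCopy (El r) X) (hs : UCSection X) :
    BallsUH X (El 2) := by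
  obtain ⟨S, P, hPS⟩ := hc
  obtain ⟨σ, hσ, hσ'⟩ := hs
  have hinf : ¬ FiniteDimensional ℝ (LL 1) := by
    intro h
    have h1 : Function.Injective ((X.subtype).comp (S : El r →ₗ[ℝ] X)) := by
      intro a b hab
      have h2 : S a = S b := Subtype.ext hab
      rw [← hPS a, ← hPS b, h2]
    exact (HE.ell r hr).symm.inf LS_inf (FiniteDimensional.of_injective _ h1)
  have hX' : IsClosed (X : Set (LL 1)) := hX
  have h1 := (HE.split_sec X σ hσ fun q hq => hσ' q (by
    rw [mem_closedBall_zero_iff]; exact hq)).symm.trans (HE.Lp_LS 1 ENNReal.one_ne_top hinf)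
  exact (HE.final h1 (HE.factor S P hPS) (HE.ell r hr)).ball

end Pool.Agent.Results.MP_2a50c0_an.SectionCriterion
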